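import Mathlib

set_option autoImplicit false

namespace Pool.Agent.Results.MP_36d6be_co.ReductionToSequences

open Polynomial in
lemma quartic_finite {a4 a3 a2 a1 a0 : ℝ} (h : a4 ≠ 0) :
    {x : ℝ | a4 * x ^ 4 + a3 * x ^ 3 + a2 * x ^ 2 + a1 * x + a0 = 0}.Finite := by
  set p : ℝ[X] := C a4 * X ^ 4 + C a3 * X ^ 3 + C a2 * X ^ 2 + C a1 * X + C a0 with hp
  have hp0 : p ≠ 0 := by
    intro h0
    apply h
    have : p.coeff 4 = 0 := by rw [h0]; simp
    rw [hp] at this
    simpa [coeff_X, coeff_C] using this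
  refine (p.roots.toFinset.finite_toSet).subset ?_
  intro x hx
  simp only [Finset.mem_coe, Multiset.mem_toFinset]
  rw [mem_roots hp0]
  simp only [IsRoot.def, hp]
  simpa using hx

/-- The possible values of `t = ‖w‖²` when the areas of the three triangles spanned by `x` and two
of three given points are given. -/
lemma t_finite {F G C c1 c2 c3 : ℝ} (hF : 0 < F) (hdet : C ^ 2 < F * G) :
    {t : ℝ | ∃ α β : ℝ, t * F - α ^ 2 = c1 ∧ t * G - β ^ 2 = c2 ∧
      (t - 2 * α + F) * (F + G - 2 * C) - (β - α + F - C) ^ 2 = c3}.Finite := by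
  -- elimination of `t` and `β`
  set k : ℝ := F * c2 - G * c1 with hk
  set e : ℝ := F - C with he
  set D : ℝ := F + G - 2 * C with hD
  set l : ℝ := 2 * F * (D - e) with hl
  set c : ℝ := F * c3 - c1 * D - F ^ 2 * D - k + F * e ^ 2 with hc
  have ha4 : 4 * F * G - 4 * C ^ 2 ≠ 0 := by nlinarith
  refine ((quartic_finite (a4 := 4 * F * G - 4 * C ^ 2) (a3 := -8 * F * G * e - 4 * C * l)
    (a2 := 4 * F * G * e ^ 2 - 4 * F * k - l ^ 2 - 4 * C * c) (a1 := 8 * F * k * e - 2 * l * c)
    (a0 := -4 * F * k * e ^ 2 - c ^ 2) ha4).image (fun α => (α ^ 2 + c1) / F)).subset ?_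
  rintro t ⟨α, β, h1, h2, h3⟩
  refine ⟨α, ?_, ?_⟩
  · have hβ : F * β ^ 2 = G * α ^ 2 - k := by
      rw [hk]; linear_combination G * h1 - F * h2
    have hR : 2 * F * β * (α - e) = 2 * C * α ^ 2 + l * α + c := by
      rw [hc, hl, hk]
      have h3' : F * ((t - 2 * α + F) * D - (β - α + F - C) ^ 2) = F * c3 := by rw [hD, h3]
      have h1' : t * F = α ^ 2 + c1 := by linarith
      have e1 : F * ((t - 2 * α + F) * D - (β - α + F - C) ^ 2) =
          (t * F - 2 * α * F + F ^ 2) * D - F * (β - α + e) ^ 2 := by rw [he]; ring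
      rw [e1, h1'] at h3'
      have e2 : F * (β - α + e) ^ 2 = (G * α ^ 2 - k) + F * α ^ 2 + F * e ^ 2
          - 2 * F * β * (α - e) - 2 * F * e * α := by rw [← hβ]; ring
      rw [e2, hk] at h3'
      rw [hD] at h3' ⊢
      linear_combination h3'
    have hsq : 4 * F * (G * α ^ 2 - k) * (α - e) ^ 2 = (2 * C * α ^ 2 + l * α + c) ^ 2 := by
      rw [← hR, ← hβ]; ring
    simp only [Set.mem_ofPred_eq]
    linear_combination hsq
  · simp only
    rw [div_eq_iff hF.ne']
    linarith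

section Geometry

variable {E : Type*} [NormedAddCommGroup E] [InnerProductSpace ℝ E]

/-- The area of the triangle `abc`. -/
noncomputable def area (a b c : E) : ℝ :=
  (1 / 2 : ℝ) * Real.sqrt (‖b - a‖ ^ 2 * ‖c - a‖ ^ 2 - (inner ℝ (b - a) (c - a)) ^ 2)

/-- `S` is a rational-area set: any three distinct points of `S` span a triangle whose area is a
nonzero rational number. -/
def RationalArea (S : Set E) : Prop :=
  ∀ a ∈ S, ∀ b ∈ S, ∀ c ∈ S, a ≠ b → b ≠ c → a ≠ c → ∃ q : ℚ, q ≠ 0 ∧ area a b c = (q : ℝ)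

lemma gram_eq {S : Set E} (hS : RationalArea S) {a b c : E} (ha : a ∈ S) (hb : b ∈ S)
    (hc : c ∈ S) (hab : a ≠ b) (hbc : b ≠ c) (hac : a ≠ c) :
    ∃ q : ℚ, q ≠ 0 ∧
      ‖b - a‖ ^ 2 * ‖c - a‖ ^ 2 - (inner ℝ (b - a) (c - a)) ^ 2 = 4 * (q : ℝ) ^ 2 := by
  obtain ⟨q, hq, hA⟩ := hS a ha b hb c hc hab hbc hac
  refine ⟨q, hq, ?_⟩
  unfold area at hA
  set X := ‖b - a‖ ^ 2 * ‖c - a‖ ^ 2 - (inner ℝ (b - a) (c - a)) ^ 2 with hX
  have hs : Real.sqrt X = 2 * q := by linarith
  have hX0 : 0 ≤ X := by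
    by_contra hneg
    push Not at hneg
    rw [Real.sqrt_eq_zero_of_nonpos hneg.le] at hs
    apply hq
    have : (q : ℝ) = 0 := by linarith
    exact_mod_cast this
  have h2 : Real.sqrt X ^ 2 = X := Real.sq_sqrt hX0
  rw [hs] at h2
  linarith

lemma inner_sub_sub' (w f g : E) : inner ℝ (w - f) (g - f) =
    inner ℝ w g - inner ℝ w f + ‖f‖ ^ 2 - inner ℝ f g := by
  rw [inner_sub_left, inner_sub_right, inner_sub_right, real_inner_self_eq_norm_sq]
  ring

/-- In a rational-area set only countably many distances from a given point occur. -/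
lemma countable_dist {S : Set E} (hS : RationalArea S) {y : E} (hy : y ∈ S) :
    ((fun x : E => ‖x - y‖ ^ 2) '' S).Countable := by
  by_cases hex : ∃ y2 ∈ S, ∃ y3 ∈ S, y2 ≠ y ∧ y3 ≠ y ∧ y2 ≠ y3
  · obtain ⟨y2, h2, y3, h3, h2y, h3y, h23⟩ := hex
    set F : ℝ := ‖y2 - y‖ ^ 2 with hF
    set G : ℝ := ‖y3 - y‖ ^ 2 with hG
    set C : ℝ := inner ℝ (y2 - y) (y3 - y) with hC
    have hF0 : 0 < F := by
      have : 0 < ‖y2 - y‖ := norm_pos_iff.2 (sub_ne_zero.2 h2y)
      positivity
    have hdet : C ^ 2 < F * G := by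
      obtain ⟨q, hq, hA⟩ := gram_eq hS hy h2 h3 h2y.symm h23 h3y.symm
      have : (0 : ℝ) < (q : ℝ) ^ 2 := by
        have : (q : ℝ) ≠ 0 := by exact_mod_cast hq
        positivity
      linarith
    have hcount : (((fun x : E => ‖x - y‖ ^ 2) '' {y, y2, y3}) ∪
        ⋃ p : ℚ × ℚ × ℚ, {t : ℝ | ∃ α β : ℝ, t * F - α ^ 2 = 4 * (p.1 : ℝ) ^ 2 ∧
          t * G - β ^ 2 = 4 * (p.2.1 : ℝ) ^ 2 ∧
          (t - 2 * α + F) * (F + G - 2 * C) - (β - α + F - C) ^ 2 =
            4 * (p.2.2 : ℝ) ^ 2}).Countable := by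
      refine Set.Countable.union ?_ (Set.countable_iUnion fun p => (t_finite hF0 hdet).countable)
      exact ((Set.toFinite ({y, y2, y3} : Set E)).image _).countable
    refine hcount.mono ?_
    rintro _ ⟨x, hx, rfl⟩
    by_cases hxy : x = y
    · exact Or.inl ⟨x, by simp [hxy], rfl⟩
    by_cases hx2 : x = y2
    · exact Or.inl ⟨x, by simp [hx2], rfl⟩
    by_cases hx3 : x = y3
    · exact Or.inl ⟨x, by simp [hx3], rfl⟩
    right
    obtain ⟨q1, -, hq1⟩ := gram_eq hS hy hx h2 (Ne.symm hxy) hx2 h2y.symm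
    obtain ⟨q2, -, hq2⟩ := gram_eq hS hy hx h3 (Ne.symm hxy) hx3 h3y.symm
    obtain ⟨q3, -, hq3⟩ := gram_eq hS h2 hx h3 (Ne.symm hx2) hx3 h23
    refine Set.mem_iUnion.2 ⟨(q1, q2, q3), inner ℝ (x - y) (y2 - y), inner ℝ (x - y) (y3 - y),
      hq1, hq2, ?_⟩
    have e1 : ‖x - y2‖ ^ 2 = ‖x - y‖ ^ 2 - 2 * inner ℝ (x - y) (y2 - y) + F := by
      rw [hF, ← norm_sub_sq_real]
      congr 2
      abel
    have e2 : ‖y3 - y2‖ ^ 2 = F + G - 2 * C := by
      have h : y3 - y2 = (y3 - y) - (y2 - y) := by abel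
      rw [h, norm_sub_sq_real, real_inner_comm, hF, hG, hC]
      ring
    have e3 : inner ℝ (x - y2) (y3 - y2) =
        inner ℝ (x - y) (y3 - y) - inner ℝ (x - y) (y2 - y) + F - C := by
      have h : y3 - y2 = (y3 - y) - (y2 - y) := by abel
      have h' : x - y2 = (x - y) - (y2 - y) := by abel
      rw [h, h', inner_sub_sub', hF, hC]
    rw [e1, e2, e3] at hq3
    exact hq3
  · push Not at hex
    have hfin : S.Countable := by
      by_cases h1 : ∃ z ∈ S, z ≠ y
      · obtain ⟨z, hz, hzy⟩ := h1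
        refine (Set.toFinite ({y, z} : Set E)).countable.mono ?_
        intro x hx
        by_cases hxy : x = y
        · simp [hxy]
        · have := hex z hz x hx hzy hxy
          simp [this]
      · push Not at h1
        refine (Set.toFinite ({y} : Set E)).countable.mono ?_
        intro x hx
        simp [h1 x hx]
    exact hfin.image _

end Geometry

section Sequence

variable {E : Type*} [NormedAddCommGroup E] [InnerProductSpace ℝ E]

lemma split_step [TopologicalSpace.SeparableSpace E] {S : Set E} (hS : RationalArea S)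
    {U : Set E} (hUS : U ⊆ S) (hU : ¬ U.Countable) :
    ∃ y ∈ U, ∃ D : ℝ, 0 < D ∧ ∃ U' : Set E, U' ⊆ U ∧ ¬ U'.Countable ∧
      (∀ x ∈ U', ‖x - y‖ ^ 2 = D) ∧ ∀ x ∈ U', ∀ x' ∈ U', ‖x - x'‖ ^ 2 < D / 2 := by
  obtain ⟨y, hy⟩ : U.Nonempty := by
    by_contra h
    rw [Set.not_nonempty_iff_eq_empty] at h
    exact hU (h ▸ Set.countable_empty)
  have hUy : ¬ (U \ {y}).Countable := by
    intro h
    apply hU
    refine (h.insert y).mono ?_
    intro x hx
    by_cases hxy : x = y
    · simp [hxy]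
    · exact Set.mem_insert_of_mem _ ⟨hx, by simpa using hxy⟩
  have hfib : ∃ D ∈ (fun x : E => ‖x - y‖ ^ 2) '' S,
      ¬ {x | x ∈ U \ {y} ∧ ‖x - y‖ ^ 2 = D}.Countable := by
    by_contra hcon
    push Not at hcon
    apply hUy
    refine ((countable_dist hS (hUS hy)).biUnion hcon).mono ?_
    intro x hx
    exact Set.mem_biUnion ⟨x, hUS hx.1, rfl⟩ ⟨hx, rfl⟩
  obtain ⟨D, -, hD⟩ := hfib
  set V : Set E := {x | x ∈ U \ {y} ∧ ‖x - y‖ ^ 2 = D} with hV
  have hD0 : 0 < D := by
    obtain ⟨x, hx⟩ : V.Nonempty := by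
      by_contra h
      rw [Set.not_nonempty_iff_eq_empty] at h
      exact hD (h ▸ Set.countable_empty)
    have h1 : x ≠ y := by simpa using hx.1.2
    have h2 : 0 < ‖x - y‖ := norm_pos_iff.2 (sub_ne_zero.2 h1)
    rw [← hx.2]
    positivity
  set ρ : ℝ := Real.sqrt D / 4 with hρ
  have hρ0 : 0 < ρ := by
    have := Real.sqrt_pos.2 hD0
    positivity
  obtain ⟨c, hc, hcd⟩ := TopologicalSpace.exists_countable_dense E
  have hball : ∃ p ∈ c, ¬ (V ∩ Metric.ball p ρ).Countable := by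
    by_contra hcon
    push Not at hcon
    apply hD
    refine (hc.biUnion hcon).mono ?_
    intro x hx
    obtain ⟨p, hp, hxp⟩ := Metric.mem_closure_iff.1 (hcd x) ρ hρ0
    exact Set.mem_biUnion hp ⟨hx, by simpa [Metric.mem_ball] using hxp⟩
  obtain ⟨p, -, hp⟩ := hball
  refine ⟨y, hy, D, hD0, V ∩ Metric.ball p ρ, fun x hx => hx.1.1.1, hp,
    fun x hx => hx.1.2, ?_⟩
  intro x hx x' hx'
  have h1 : dist x x' < 2 * ρ := by
    have ha := hx.2
    have hb := hx'.2
    rw [Metric.mem_ball] at ha hb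
    calc dist x x' ≤ dist x p + dist p x' := dist_triangle _ _ _
      _ = dist x p + dist x' p := by rw [dist_comm p x']
      _ < 2 * ρ := by linarith
  rw [dist_eq_norm] at h1
  have h2 : ‖x - x'‖ ^ 2 < (2 * ρ) ^ 2 := by
    apply pow_lt_pow_left₀ h1 (norm_nonneg _) (by norm_num)
  have h3 : (2 * ρ) ^ 2 = D / 4 := by
    have := Real.sq_sqrt hD0.le
    rw [hρ]
    nlinarith
  linarith

/-- An uncountable rational-area set in a separable space contains a sequence whose distances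
depend only on the first index. -/
lemma exists_seq [TopologicalSpace.SeparableSpace E] {S : Set E} (hS : RationalArea S)
    (hSu : ¬ S.Countable) :
    ∃ (y : ℕ → E) (D : ℕ → ℝ), (∀ n, y n ∈ S) ∧ (∀ n, 0 < D n) ∧
      (∀ n, D (n + 1) < D n / 2) ∧ ∀ i j, i < j → ‖y j - y i‖ ^ 2 = D i := by
  classical
  choose y hy D hD V hVU hVc hV1 hV2 using
    fun (U : {U : Set E // U ⊆ S ∧ ¬ U.Countable}) => split_step hS U.2.1 U.2.2
  let next : {U : Set E // U ⊆ S ∧ ¬ U.Countable} → {U : Set E // U ⊆ S ∧ ¬ U.Countable} :=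
    fun U => ⟨V U, (hVU U).trans U.2.1, hVc U⟩
  let seq : ℕ → {U : Set E // U ⊆ S ∧ ¬ U.Countable} :=
    fun n => Nat.rec ⟨S, Set.Subset.refl _, hSu⟩ (fun _ K => next K) n
  have hsucc : ∀ n, (seq (n + 1)).1 = V (seq n) := fun n => rfl
  have hmono : ∀ n m, n ≤ m → (seq m).1 ⊆ (seq n).1 := by
    intro n m hnm
    induction m, hnm using Nat.le_induction with
    | base => exact Set.Subset.refl _
    | succ m _ ih =>
      rw [hsucc]
      exact (hVU (seq m)).trans ih
  have hmem : ∀ i j, i < j → y (seq j) ∈ V (seq i) := by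
    intro i j hij
    have := hmono (i + 1) j hij (hy (seq j))
    rwa [hsucc] at this
  refine ⟨fun n => y (seq n), fun n => D (seq n), fun n => (seq n).2.1 (hy _),
    fun n => hD _, ?_, ?_⟩
  · intro n
    obtain ⟨x, hx⟩ : (V (seq (n + 1))).Nonempty := by
      by_contra h
      rw [Set.not_nonempty_iff_eq_empty] at h
      exact hVc (seq (n + 1)) (h ▸ Set.countable_empty)
    have h1 : ‖x - y (seq (n + 1))‖ ^ 2 = D (seq (n + 1)) := hV1 _ x hx
    have h2 : x ∈ V (seq n) := by
      have := hVU (seq (n + 1)) hx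
      rwa [hsucc] at this
    simp only
    rw [← h1]
    exact hV2 (seq n) x h2 _ (hmem n (n + 1) (Nat.lt_succ_self n))
  · intro i j hij
    exact hV1 (seq i) _ (hmem i j hij)

/-- The area condition along the sequence. -/
lemma seq_area {S : Set E} (hS : RationalArea S) {y : ℕ → E} {D : ℕ → ℝ} (hy : ∀ n, y n ∈ S)
    (hD : ∀ n, 0 < D n) (hyD : ∀ i j, i < j → ‖y j - y i‖ ^ 2 = D i) {i j : ℕ} (hij : i < j) :
    ∃ q : ℚ, q ≠ 0 ∧ D j * (4 * D i - D j) = 16 * (q : ℝ) ^ 2 := by
  have hne : ∀ i j, i < j → y i ≠ y j := by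
    intro i j hij h
    have := hyD i j hij
    rw [h] at this
    simp only [sub_self, norm_zero] at this
    have h' := hD i
    rw [← this] at h'
    norm_num at h'
  obtain ⟨q, hq, hA⟩ := gram_eq hS (hy i) (hy j) (hy (j + 1)) (hne i j hij)
    (hne j (j + 1) (Nat.lt_succ_self j)) (hne i (j + 1) (by omega))
  refine ⟨q, hq, ?_⟩
  have h1 := hyD i j hij
  have h2 := hyD i (j + 1) (by omega)
  have h3 := hyD j (j + 1) (Nat.lt_succ_self j)
  have h4 : y (j + 1) - y j = (y (j + 1) - y i) - (y j - y i) := by abel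
  rw [h4, norm_sub_sq_real, h1, h2, real_inner_comm] at h3
  rw [h1, h2] at hA
  have h5 : inner ℝ (y j - y i) (y (j + 1) - y i) = D i - D j / 2 := by linarith
  rw [h5] at hA
  linear_combination 4 * hA

end Sequence

section Arithmetic

lemma to_rational {D : ℕ → ℝ} (hD : ∀ n, 0 < D n) (hD2 : ∀ n, D (n + 1) < D n / 2)
    (hq : ∀ i j, i < j → ∃ q : ℚ, q ≠ 0 ∧ D j * (4 * D i - D j) = 16 * (q : ℝ) ^ 2) :
    ∃ M : ℚ, 0 < M ∧ ∃ r : ℕ → ℚ, (∀ n, 0 < r n) ∧ (∀ n, r (n + 1) < r n / 2) ∧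
      ∀ i j, i < j → ∃ q : ℚ, q ≠ 0 ∧ M * r j * (4 * r i - r j) = q ^ 2 := by
  set β : ℝ := D 0 - D 1 with hβ
  have hβ0 : 0 < β := by
    have h1 := hD2 0
    have h2 := hD 0
    rw [zero_add] at h1
    rw [hβ]
    linarith
  have hr : ∀ n, ∃ r : ℚ, (r : ℝ) = D (n + 2) * β := by
    intro n
    obtain ⟨q0, -, h0⟩ := hq 0 (n + 2) (by omega)
    obtain ⟨q1, -, h1⟩ := hq 1 (n + 2) (by omega)
    refine ⟨4 * (q0 ^ 2 - q1 ^ 2), ?_⟩
    push_cast
    rw [hβ]
    linear_combination (-1 / 4 : ℝ) * h0 + (1 / 4 : ℝ) * h1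
  choose r hr using hr
  obtain ⟨q, hq0, hq1⟩ := hq 2 3 (by norm_num)
  have hq0' : (q : ℝ) ≠ 0 := by exact_mod_cast hq0
  have hM : ((r 1 * (4 * r 0 - r 1) / (16 * q ^ 2) : ℚ) : ℝ) = β ^ 2 := by
    push_cast
    rw [hr 0, hr 1, div_eq_iff (by positivity), show (1 + 2 : ℕ) = 3 from rfl,
      show (0 + 2 : ℕ) = 2 from rfl]
    linear_combination β ^ 2 * hq1
  set M : ℚ := r 1 * (4 * r 0 - r 1) / (16 * q ^ 2) with hMdef
  have hM0 : 0 < M := by
    have : (0 : ℝ) < (M : ℝ) := by rw [hM]; positivity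
    exact_mod_cast this
  refine ⟨M, hM0, r, ?_, ?_, ?_⟩
  · intro n
    have : (0 : ℝ) < (r n : ℝ) := by rw [hr]; exact mul_pos (hD _) hβ0
    exact_mod_cast this
  · intro n
    have : (r (n + 1) : ℝ) < ((r n / 2 : ℚ) : ℝ) := by
      push_cast
      rw [hr, hr]
      have := hD2 (n + 2)
      have h3 : n + 1 + 2 = n + 2 + 1 := by omega
      rw [h3]
      nlinarith
    exact_mod_cast this
  · intro i j hij
    obtain ⟨s, hs0, hs⟩ := hq (i + 2) (j + 2) (by omega)
    refine ⟨4 * M * s, ?_, ?_⟩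
    · have := hM0.ne'
      positivity
    · have : ((M * r j * (4 * r i - r j) : ℚ) : ℝ) = (((4 * M * s) ^ 2 : ℚ) : ℝ) := by
        push_cast
        rw [hr i, hr j, hM]
        linear_combination β ^ 4 * hs
      exact_mod_cast this

lemma to_squarefree {M : ℚ} (hM : 0 < M) {r : ℕ → ℚ}
    (hq : ∀ i j, i < j → ∃ q : ℚ, q ≠ 0 ∧ M * r j * (4 * r i - r j) = q ^ 2) :
    ∃ d : ℕ, Squarefree d ∧
      ∀ i j, i < j → ∃ q : ℚ, q ≠ 0 ∧ (d : ℚ) * r j * (4 * r i - r j) = q ^ 2 := by
  obtain ⟨d, c, hcd, hd⟩ := Nat.sq_mul_squarefree (M.num.natAbs * M.den)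
  refine ⟨d, hd, fun i j hij => ?_⟩
  obtain ⟨q, hq0, hq1⟩ := hq i j hij
  have hden : (M.den : ℚ) ≠ 0 := by exact_mod_cast M.den_ne_zero
  have hnum : ((M.num.natAbs : ℕ) : ℚ) = M * M.den := by
    have h1 : (M.num : ℚ) = M * M.den := by
      rw [Rat.mul_den_eq_num]
    have h2 : ((M.num.natAbs : ℕ) : ℤ) = M.num := by
      rw [Int.natCast_natAbs, abs_of_pos (Rat.num_pos.2 hM)]
    rw [← h1, ← h2]
    simp
  have hcd' : (c : ℚ) ^ 2 * d = M * M.den ^ 2 := by
    have : ((c ^ 2 * d : ℕ) : ℚ) = ((M.num.natAbs * M.den : ℕ) : ℚ) := by rw [hcd]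
    push_cast at this
    rw [hnum] at this
    linear_combination this
  have hc : (c : ℚ) ≠ 0 := by
    intro h
    rw [h] at hcd'
    have : M * (M.den : ℚ) ^ 2 ≠ 0 := by positivity
    apply this
    rw [← hcd']
    ring
  refine ⟨q * M.den / c, by positivity, ?_⟩
  rw [div_pow, mul_pow, ← hq1, eq_div_iff (by positivity)]
  linear_combination (r j * (4 * r i - r j)) * hcd'

lemma no_prime {d : ℕ} (hd : Squarefree d) {p : ℕ} (hp : p.Prime) (hpd : p ∣ d) (hp3 : p ≠ 3)
    {r : ℕ → ℚ} (hr : ∀ n, 0 < r n)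
    (hq : ∀ i j, i < j → ∃ q : ℚ, q ≠ 0 ∧ (d : ℚ) * r j * (4 * r i - r j) = q ^ 2) : False := by
  have : Fact p.Prime := ⟨hp⟩
  set v : ℚ → ℤ := padicValRat p with hv
  have hr0 : ∀ n, r n ≠ 0 := fun n => (hr n).ne'
  have hd0 : (d : ℚ) ≠ 0 := by
    have := hd.ne_zero
    exact_mod_cast this
  have hvd : v d = 1 := by
    obtain ⟨m, rfl⟩ := hpd
    have hpm : ¬ p ∣ m := by
      intro h
      obtain ⟨m', rfl⟩ := h
      have h1 : p * p ∣ p * (p * m') := ⟨m', by ring⟩
      have := hd p h1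
      exact hp.one_lt.ne' (Nat.isUnit_iff.1 this)
    have hm0 : (m : ℚ) ≠ 0 := by
      intro h
      apply hpm
      have : m = 0 := by exact_mod_cast h
      rw [this]
      exact dvd_zero p
    have hp0 : (p : ℚ) ≠ 0 := by exact_mod_cast hp.ne_zero
    rw [hv]
    push_cast
    rw [padicValRat.mul hp0 hm0, padicValRat.self hp.one_lt, padicValRat.of_nat,
      padicValNat.eq_zero_of_not_dvd hpm]
    simp
  set c : ℤ := v 2 with hc
  have hc0 : 0 ≤ c := by
    rw [hc, hv]
    have : (2 : ℚ) = ((2 : ℕ) : ℚ) := by norm_num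
    rw [this, padicValRat.of_nat]
    positivity
  have hv4 : ∀ n, v (4 * r n) = 2 * c + v (r n) := by
    intro n
    have h4 : (4 : ℚ) * r n = 2 ^ 2 * r n := by norm_num
    rw [h4, hv, padicValRat.mul (by norm_num) (hr0 n), padicValRat.pow]
    push_cast
    rfl
  have hv3 : v 3 = 0 := by
    have h3 : (3 : ℚ) = ((3 : ℕ) : ℚ) := by norm_num
    rw [hv, h3, padicValRat.of_nat, padicValNat.eq_zero_of_not_dvd]
    · rfl
    · intro h
      exact hp3 ((Nat.prime_dvd_prime_iff_eq hp Nat.prime_three).1 h)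
  have hne : ∀ i j, i < j → 4 * r i - r j ≠ 0 := by
    intro i j hij h
    obtain ⟨q, hq0, hq1⟩ := hq i j hij
    rw [h, mul_zero] at hq1
    exact hq0 (pow_eq_zero_iff (two_ne_zero)|>.1 hq1.symm)
  have hpar : ∀ i j, i < j → ∃ z : ℤ, 1 + v (r j) + v (4 * r i - r j) = 2 * z := by
    intro i j hij
    obtain ⟨q, hq0, hq1⟩ := hq i j hij
    refine ⟨v q, ?_⟩
    have h1 : v ((d : ℚ) * r j * (4 * r i - r j)) = v (q ^ 2) := by rw [hq1]
    rw [hv, padicValRat.mul (mul_ne_zero hd0 (hr0 j)) (hne i j hij), padicValRat.mul hd0 (hr0 j),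
      padicValRat.pow] at h1
    rw [hv] at hvd
    rw [hvd] at h1
    push_cast at h1
    exact h1
  -- case A
  have hA : ∀ i j, i < j → 2 * c + v (r i) ≤ v (r j) := by
    intro i j hij
    by_contra hcon
    push Not at hcon
    obtain ⟨z, hz⟩ := hpar i j hij
    have h1 : v (-(r j) + 4 * r i) = v (-(r j)) := by
      refine padicValRat.add_eq_of_lt ?_ (neg_ne_zero.2 (hr0 j)) (by have := hr0 i; positivity) ?_
      · have := hne i j hij
        intro h
        apply this
        linarith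
      · rw [padicValRat.neg]
        have := hv4 i
        rw [hv] at this hcon
        rw [this]
        exact hcon
    have h2 : -(r j) + 4 * r i = 4 * r i - r j := by ring
    rw [h2] at h1
    have h3 : v (-(r j)) = v (r j) := by rw [hv]; exact padicValRat.neg _
    rw [h1, h3] at hz
    omega
  -- case B
  have hB : ∀ i j, i < j → 2 * c + v (r i) < v (r j) → ∃ z : ℤ, v (r i) + v (r j) = 2 * z + 1 := by
    intro i j hij hlt
    obtain ⟨z, hz⟩ := hpar i j hij
    have h1 : v (4 * r i + -(r j)) = v (4 * r i) := by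
      refine padicValRat.add_eq_of_lt ?_ (by have := hr0 i; positivity) (neg_ne_zero.2 (hr0 j)) ?_
      · have := hne i j hij
        rwa [← sub_eq_add_neg]
      · rw [padicValRat.neg]
        have := hv4 i
        rw [hv] at this hlt
        rw [this]
        exact hlt
    rw [← sub_eq_add_neg] at h1
    rw [h1, hv4] at hz
    exact ⟨z - c - 1, by omega⟩
  -- case C
  have hC : ∀ i j, i < j → v (r j) = 2 * c + v (r i) → v (r j) + 1 ≤ v (4 * r i - r j) := by
    intro i j hij heq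
    obtain ⟨z, hz⟩ := hpar i j hij
    have h1 : min (v (4 * r i)) (v (-(r j))) ≤ v (4 * r i + -(r j)) := by
      refine padicValRat.min_le_padicValRat_add ?_
      have := hne i j hij
      rwa [← sub_eq_add_neg]
    have h3 : v (-(r j)) = v (r j) := by rw [hv]; exact padicValRat.neg _
    rw [← sub_eq_add_neg, h3, hv4, ← heq, min_self] at h1
    omega
  have htri : ∀ i j k, i < j → j < k → 2 * c + v (r i) < v (r k) := by
    intro i j k hij hjk
    by_contra hcon
    push Not at hcon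
    have h1 := hA i j hij
    have h2 := hA j k hjk
    have hcz : c = 0 := by omega
    have e1 : v (r j) = 2 * c + v (r i) := by omega
    have e2 : v (r k) = 2 * c + v (r j) := by omega
    have e3 : v (r k) = 2 * c + v (r i) := by omega
    have f1 := hC i j hij e1
    have f2 := hC j k hjk e2
    have f3 := hC i k (hij.trans hjk) e3
    have g1 : v (r j) + 1 ≤ v (3 * r j) := by
      have hs : 3 * r j = (4 * r j - r k) + ((4 * r i - r j) + -(4 * r i - r k)) := by ring
      by_cases h0 : (4 * r i - r j) + -(4 * r i - r k) = 0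
      · rw [hs, h0, add_zero]
        omega
      · have hm1 : min (v (4 * r i - r j)) (v (-(4 * r i - r k))) ≤
            v ((4 * r i - r j) + -(4 * r i - r k)) := padicValRat.min_le_padicValRat_add h0
        have hn1 : v (-(4 * r i - r k)) = v (4 * r i - r k) := by
          rw [hv]; exact padicValRat.neg _
        rw [hn1] at hm1
        have h3r : (4 * r j - r k) + ((4 * r i - r j) + -(4 * r i - r k)) ≠ 0 := by
          rw [← hs]
          have := hr0 j
          positivity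
        have hm2 : min (v (4 * r j - r k)) (v ((4 * r i - r j) + -(4 * r i - r k))) ≤
            v ((4 * r j - r k) + ((4 * r i - r j) + -(4 * r i - r k))) :=
          padicValRat.min_le_padicValRat_add h3r
        rw [hs]
        have hm3 : v (r j) + 1 ≤ min (v (4 * r i - r j)) (v (4 * r i - r k)) :=
          le_min (by omega) (by omega)
        have hm4 : v (r j) + 1 ≤
            min (v (4 * r j - r k)) (v ((4 * r i - r j) + -(4 * r i - r k))) :=
          le_min (by omega) (hm3.trans hm1)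
        exact hm4.trans hm2
    have g2 : v (3 * r j) = v 3 + v (r j) := by
      rw [hv]; exact padicValRat.mul (by norm_num) (hr0 j)
    omega
  obtain ⟨z1, h1⟩ := hB 0 2 (by norm_num) (htri 0 1 2 (by norm_num) (by norm_num))
  obtain ⟨z2, h2⟩ := hB 2 4 (by norm_num) (htri 2 3 4 (by norm_num) (by norm_num))
  obtain ⟨z3, h3⟩ := hB 0 4 (by norm_num) (htri 0 1 4 (by norm_num) (by norm_num))
  omega

lemma one_or_three {d : ℕ} (hd : Squarefree d) (h : ∀ p : ℕ, p.Prime → p ∣ d → p = 3) :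
    d = 1 ∨ d = 3 := by
  by_cases h1 : d = 1
  · exact Or.inl h1
  right
  obtain ⟨p, hp, hpd⟩ := Nat.exists_prime_and_dvd h1
  have hp3 := h p hp hpd
  subst hp3
  obtain ⟨m, rfl⟩ := hpd
  by_cases hm : m = 1
  · rw [hm]
  obtain ⟨p', hp', hpm⟩ := Nat.exists_prime_and_dvd hm
  have hp'3 := h p' hp' (hpm.mul_left 3)
  subst hp'3
  obtain ⟨m', rfl⟩ := hpm
  have := hd 3 ⟨m', by ring⟩
  exact absurd (Nat.isUnit_iff.1 this) (by norm_num)

end Arithmetic

section Converse

open Filter Topology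

/-- The real Hilbert space `ℓ²`. -/
abbrev Ell2 : Type := lp (fun _ : ℕ => ℝ) 2

/-- The code of the initial segment of length `n + 1` of `x`. -/
def code (x : ℕ → Bool) (n : ℕ) : ℕ := Encodable.encode ((List.range (n + 1)).map x)

lemma code_eq_iff {x y : ℕ → Bool} {n m : ℕ} :
    code x n = code y m ↔ n = m ∧ ∀ k ≤ n, x k = y k := by
  unfold code
  rw [Encodable.encode_inj]
  constructor
  · intro h
    have h1 := congrArg List.length h
    simp only [List.length_map, List.length_range] at h1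
    have hnm : n = m := by omega
    subst hnm
    refine ⟨rfl, fun k hk => ?_⟩
    have h2 := List.map_inj_left.1 h k (List.mem_range.2 (by omega))
    exact h2
  · rintro ⟨rfl, h⟩
    exact List.map_inj_left.2 fun k hk => h k (by have := List.mem_range.1 hk; omega)

lemma code_injective (x : ℕ → Bool) : Function.Injective (code x) := fun _ _ h =>
  (code_eq_iff.1 h).1

open Classical in
/-- The coordinates of the point with address `x`. -/
noncomputable def coord (c : ℕ → ℝ) (x : ℕ → Bool) (k : ℕ) : ℝ :=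
  if h : ∃ n, k = code x n then c h.choose else 0

lemma coord_code (c : ℕ → ℝ) (x : ℕ → Bool) (n : ℕ) : coord c x (code x n) = c n := by
  unfold coord
  have h : ∃ m, code x n = code x m := ⟨n, rfl⟩
  rw [dif_pos h]
  congr 1
  exact (code_injective x h.choose_spec).symm

lemma coord_eq_zero (c : ℕ → ℝ) (x : ℕ → Bool) {k : ℕ} (hk : k ∉ Set.range (code x)) :
    coord c x k = 0 := by
  unfold coord
  rw [dif_neg]
  rintro ⟨n, rfl⟩
  exact hk ⟨n, rfl⟩

open Classical in
lemma coord_code' (c : ℕ → ℝ) (x y : ℕ → Bool) (n : ℕ) :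
    coord c x (code y n) = if ∀ k ≤ n, x k = y k then c n else 0 := by
  by_cases h : ∀ k ≤ n, x k = y k
  · rw [if_pos h, ← coord_code c x n]
    congr 1
    exact (code_eq_iff.2 ⟨rfl, h⟩).symm
  · rw [if_neg h]
    apply coord_eq_zero
    rintro ⟨m, hm⟩
    obtain ⟨rfl, hm'⟩ := code_eq_iff.1 hm
    exact h hm'

lemma coord_mem {c : ℕ → ℝ} (hc : Summable fun n => c n ^ 2) (x : ℕ → Bool) :
    Memℓp (coord c x) 2 := by
  apply memℓp_gen
  rw [← (code_injective x).summable_iff]
  · simpa [Function.comp_def, coord_code] using hc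
  · intro k hk
    simp [coord_eq_zero c x hk]

/-- The point with address `x`. -/
noncomputable def point {c : ℕ → ℝ} (hc : Summable fun n => c n ^ 2) (x : ℕ → Bool) : Ell2 :=
  ⟨coord c x, coord_mem hc x⟩

open Classical in
lemma inner_point {c : ℕ → ℝ} (hc : Summable fun n => c n ^ 2) (x y : ℕ → Bool) :
    inner ℝ (point hc x) (point hc y) = ∑' n, if ∀ k ≤ n, x k = y k then c n ^ 2 else 0 := by
  rw [lp.inner_eq_tsum]
  have h1 : ∀ k, inner ℝ ((point hc x : ∀ _ : ℕ, ℝ) k) ((point hc y : ∀ _ : ℕ, ℝ) k) =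
      coord c x k * coord c y k := by
    intro k
    change coord c y k * coord c x k = _
    ring
  simp_rw [h1]
  rw [← (code_injective y).tsum_eq]
  · refine tsum_congr fun n => ?_
    rw [coord_code, coord_code']
    split_ifs <;> ring
  · intro k hk
    by_contra hcon
    apply hk
    simp [coord_eq_zero c y hcon]

lemma exists_points {D : ℕ → ℝ} (hD : StrictAnti D)
    (hlim : Tendsto D atTop (𝓝 0)) :
    ∃ φ : (ℕ → Bool) → Ell2, ∀ x y, x ≠ y → ‖φ x - φ y‖ ^ 2 = D (PiNat.firstDiff x y) := by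
  classical
  set c : ℕ → ℝ := fun n => Real.sqrt ((D n - D (n + 1)) / 2) with hcdef
  have hc2 : ∀ n, c n ^ 2 = (D n - D (n + 1)) / 2 := by
    intro n
    rw [hcdef]
    apply Real.sq_sqrt
    have := hD (Nat.lt_succ_self n)
    simp only [Nat.succ_eq_add_one] at this
    linarith
  have hpart : ∀ n, ∑ i ∈ Finset.range n, c i ^ 2 = (D 0 - D n) / 2 := by
    intro n
    simp_rw [hc2]
    rw [← Finset.sum_div, Finset.sum_range_sub']
  have hsum : HasSum (fun n => c n ^ 2) (D 0 / 2) := by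
    rw [hasSum_iff_tendsto_nat_of_nonneg (fun n => sq_nonneg _)]
    simp_rw [hpart]
    have : Tendsto (fun n => (D 0 - D n) / 2) atTop (𝓝 ((D 0 - 0) / 2)) :=
      (tendsto_const_nhds.sub hlim).div_const 2
    simpa using this
  refine ⟨point hsum.summable, fun x y hxy => ?_⟩
  rw [norm_sub_sq_real, ← real_inner_self_eq_norm_sq, ← real_inner_self_eq_norm_sq, inner_point,
    inner_point, inner_point]
  have h1 : ∀ z : ℕ → Bool, (∑' n, if ∀ k ≤ n, z k = z k then c n ^ 2 else 0) = D 0 / 2 := by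
    intro z
    rw [← hsum.tsum_eq]
    refine tsum_congr fun n => ?_
    simp
  have h2 : (∑' n, if ∀ k ≤ n, x k = y k then c n ^ 2 else 0) =
      (D 0 - D (PiNat.firstDiff x y)) / 2 := by
    rw [← hpart, tsum_eq_sum (s := Finset.range (PiNat.firstDiff x y))]
    · refine Finset.sum_congr rfl fun n hn => ?_
      rw [if_pos]
      intro k hk
      exact PiNat.apply_eq_of_lt_firstDiff (hk.trans_lt (Finset.mem_range.1 hn))
    · intro n hn
      rw [if_neg]
      intro h
      have hn' : PiNat.firstDiff x y ≤ n := by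
        by_contra hcon
        exact hn (Finset.mem_range.2 (by omega))
      exact PiNat.apply_firstDiff_ne hxy (h _ hn')
  rw [h1, h1, h2]
  ring

lemma firstDiff_eq {x z : ℕ → Bool} {m : ℕ} (h : ∀ n < m, x n = z n) (hm : x m ≠ z m) :
    PiNat.firstDiff x z = m := by
  have hxz : x ≠ z := fun h' => hm (by rw [h'])
  apply le_antisymm
  · by_contra hcon
    push Not at hcon
    exact hm (PiNat.apply_eq_of_lt_firstDiff hcon)
  · by_contra hcon
    push Not at hcon
    exact PiNat.apply_firstDiff_ne hxz (h _ hcon)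

/-- The area in terms of the squared side lengths. -/
lemma area_eq {E : Type*} [NormedAddCommGroup E] [InnerProductSpace ℝ E] (a b c : E) :
    area a b c = (1 / 2 : ℝ) * Real.sqrt ((4 * ‖a - b‖ ^ 2 * ‖b - c‖ ^ 2 -
      (‖a - b‖ ^ 2 + ‖b - c‖ ^ 2 - ‖a - c‖ ^ 2) ^ 2) / 4) := by
  unfold area
  congr 2
  have h1 : ‖b - a‖ = ‖a - b‖ := norm_sub_rev _ _
  have h2 : ‖c - a‖ = ‖a - c‖ := norm_sub_rev _ _
  have h3 : ‖b - c‖ ^ 2 = ‖a - b‖ ^ 2 - 2 * inner ℝ (b - a) (c - a) + ‖a - c‖ ^ 2 := by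
    have h : b - c = (b - a) - (c - a) := by abel
    rw [h, norm_sub_sq_real, h1, h2]
  rw [h1, h2, h3]
  ring

lemma converse {D : ℕ → ℝ} (hD0 : ∀ n, 0 < D n) (hD : StrictAnti D)
    (hlim : Tendsto D atTop (𝓝 0))
    (hq : ∀ i j, i < j → ∃ q : ℚ, q ≠ 0 ∧ D j * (4 * D i - D j) = 16 * (q : ℝ) ^ 2) :
    ∃ S : Set Ell2, Cardinal.mk S = Cardinal.continuum ∧ RationalArea S := by
  obtain ⟨φ, hφ⟩ := exists_points hD hlim
  have hinj : Function.Injective φ := by
    intro x y hxy
    by_contra hne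
    have h1 := hφ x y hne
    rw [hxy, sub_self, norm_zero] at h1
    have h2 := hD0 (PiNat.firstDiff x y)
    rw [← h1] at h2
    norm_num at h2
  refine ⟨Set.range φ, ?_, ?_⟩
  · rw [Cardinal.mk_range_eq φ hinj]
    simp
  · have key : ∀ (P Q : ℝ), (∃ q : ℚ, q ≠ 0 ∧ Q * (4 * P - Q) = 16 * (q : ℝ) ^ 2) →
        ∃ q : ℚ, q ≠ 0 ∧ (1 / 2 : ℝ) * Real.sqrt (Q * (4 * P - Q) / 4) = (q : ℝ) := by
      rintro P Q ⟨q, hq0, hq1⟩
      refine ⟨|q|, abs_ne_zero.2 hq0, ?_⟩
      rw [hq1, show 16 * (q : ℝ) ^ 2 / 4 = (2 * q) ^ 2 by ring, Real.sqrt_sq_eq_abs, abs_mul]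
      push_cast
      rw [abs_of_pos (by norm_num : (0 : ℝ) < 2)]
      ring
    rintro _ ⟨x, rfl⟩ _ ⟨y, rfl⟩ _ ⟨z, rfl⟩ hxy hyz hxz
    have nxy : x ≠ y := fun h => hxy (by rw [h])
    have nyz : y ≠ z := fun h => hyz (by rw [h])
    have nxz : x ≠ z := fun h => hxz (by rw [h])
    rw [area_eq, hφ x y nxy, hφ y z nyz, hφ x z nxz]
    rcases lt_trichotomy (PiNat.firstDiff x y) (PiNat.firstDiff y z) with h | h | h
    · have h3 : PiNat.firstDiff x z = PiNat.firstDiff x y := by
        apply firstDiff_eq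
        · intro n hn
          rw [PiNat.apply_eq_of_lt_firstDiff hn, PiNat.apply_eq_of_lt_firstDiff (hn.trans h)]
        · rw [← PiNat.apply_eq_of_lt_firstDiff h]
          exact PiNat.apply_firstDiff_ne nxy
      obtain ⟨q, hq0, hq1⟩ := key _ _ (hq _ _ h)
      refine ⟨q, hq0, ?_⟩
      rw [← hq1, h3]
      congr 3
      ring
    · have h3 : PiNat.firstDiff x y < PiNat.firstDiff x z := by
        rcases lt_trichotomy (PiNat.firstDiff x z) (PiNat.firstDiff x y) with h' | h' | h'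
        · exfalso
          apply PiNat.apply_firstDiff_ne nxz
          have e2 : y (PiNat.firstDiff x z) = z (PiNat.firstDiff x z) :=
            PiNat.apply_eq_of_lt_firstDiff (by rw [← h]; exact h')
          exact (PiNat.apply_eq_of_lt_firstDiff h').trans e2
        · exfalso
          have e1 := PiNat.apply_firstDiff_ne nxy
          have e2 := PiNat.apply_firstDiff_ne nyz
          have e3 := PiNat.apply_firstDiff_ne nxz
          rw [← h] at e2
          rw [h'] at e3
          revert e1 e2 e3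
          generalize x (PiNat.firstDiff x y) = u
          generalize y (PiNat.firstDiff x y) = v
          generalize z (PiNat.firstDiff x y) = w
          revert u v w
          decide
        · exact h'
      obtain ⟨q, hq0, hq1⟩ := key _ _ (hq _ _ h3)
      refine ⟨q, hq0, ?_⟩
      rw [← hq1, ← h]
      congr 3
      ring
    · have h3 : PiNat.firstDiff x z = PiNat.firstDiff y z := by
        apply firstDiff_eq
        · intro n hn
          rw [← PiNat.apply_eq_of_lt_firstDiff hn, PiNat.apply_eq_of_lt_firstDiff (hn.trans h)]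
        · rw [PiNat.apply_eq_of_lt_firstDiff h]
          exact PiNat.apply_firstDiff_ne nyz
      obtain ⟨q, hq0, hq1⟩ := key _ _ (hq _ _ h)
      refine ⟨q, hq0, ?_⟩
      rw [← hq1, h3]
      congr 3
      ring

end Converse

section Main

open Filter Topology

instance : TopologicalSpace.SeparableSpace Ell2 := by
  let b : HilbertBasis ℕ ℝ Ell2 := HilbertBasis.ofRepr (LinearIsometryEquiv.refl ℝ _)
  have h1 : TopologicalSpace.IsSeparable (Set.range b) := (Set.countable_range b).isSeparable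
  have h2 : TopologicalSpace.IsSeparable
      (closure ((Submodule.span ℝ (Set.range b) : Submodule ℝ Ell2) : Set Ell2)) :=
    (h1.span (R := ℝ)).closure
  have h3 : closure ((Submodule.span ℝ (Set.range b) : Submodule ℝ Ell2) : Set Ell2) =
      Set.univ := by
    have := b.dense_span
    rw [← Submodule.topologicalClosure_coe, this]
    rfl
  rw [h3] at h2
  exact TopologicalSpace.isSeparable_univ_iff.1 h2

/-- There is a strictly decreasing null sequence `r₀ > r₁ > …` of positive rational numbers such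
that `N r_j (4 r_i - r_j)` is the square of a nonzero rational number for all `i < j`. -/
def ChainSeq (N : ℚ) : Prop :=
  ∃ r : ℕ → ℚ, (∀ n, 0 < r n) ∧ StrictAnti r ∧ Tendsto (fun n => (r n : ℝ)) atTop (𝓝 0) ∧
    ∀ i j, i < j → ∃ q : ℚ, q ≠ 0 ∧ N * r j * (4 * r i - r j) = q ^ 2

lemma forward {S : Set Ell2} (hS : RationalArea S) (hSu : ¬ S.Countable) :
    ChainSeq 1 ∨ ChainSeq 3 := by
  obtain ⟨y, D, hy, hD, hD2, hyD⟩ := exists_seq hS hSu
  obtain ⟨M, hM, r, hr, hr2, hq⟩ := to_rational hD hD2 fun i j hij => seq_area hS hy hD hyD hij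
  obtain ⟨d, hd, hdq⟩ := to_squarefree hM hq
  have hanti : StrictAnti r := by
    apply strictAnti_nat_of_succ_lt
    intro n
    have h1 := hr2 n
    have h2 := hr n
    linarith
  have hbound : ∀ n, r n ≤ r 0 * (1 / 2) ^ n := by
    intro n
    induction n with
    | zero => simp
    | succ n ih =>
      have h1 := hr2 n
      rw [pow_succ]
      linarith
  have hlim : Tendsto (fun n => (r n : ℝ)) atTop (𝓝 0) := by
    have h1 : Tendsto (fun n : ℕ => (r 0 : ℝ) * (1 / 2 : ℝ) ^ n) atTop (𝓝 ((r 0 : ℝ) * 0)) :=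
      (tendsto_pow_atTop_nhds_zero_of_lt_one (by norm_num) (by norm_num)).const_mul _
    rw [mul_zero] at h1
    refine squeeze_zero (fun n => ?_) (fun n => ?_) h1
    · exact_mod_cast (hr n).le
    · have h2 := hbound n
      have h3 : ((r n : ℚ) : ℝ) ≤ ((r 0 * (1 / 2) ^ n : ℚ) : ℝ) := by exact_mod_cast h2
      push_cast at h3
      exact h3
  rcases one_or_three hd (fun p hp hpd => by
    by_contra hp3
    exact no_prime hd hp hpd hp3 hr hdq) with h | h
  · left
    refine ⟨r, hr, hanti, hlim, ?_⟩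
    subst h
    simpa using hdq
  · right
    refine ⟨r, hr, hanti, hlim, ?_⟩
    subst h
    simpa using hdq

lemma backward {N : ℚ} (hN : 0 < N) (h : ChainSeq N) :
    ∃ S : Set Ell2, Cardinal.mk S = Cardinal.continuum ∧ RationalArea S := by
  obtain ⟨r, hr, hanti, hlim, hq⟩ := h
  have hN' : (0 : ℝ) < (N : ℝ) := by exact_mod_cast hN
  have hs : (0 : ℝ) < Real.sqrt N := Real.sqrt_pos.2 hN'
  refine converse (D := fun n => (r n : ℝ) / Real.sqrt N) (fun n => ?_) ?_ ?_ ?_
  · have : (0 : ℝ) < (r n : ℝ) := by exact_mod_cast hr n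
    positivity
  · intro n m hnm
    have h1 : (r m : ℝ) < (r n : ℝ) := by exact_mod_cast hanti hnm
    exact div_lt_div_of_pos_right h1 hs
  · have := hlim.div_const (Real.sqrt N)
    simpa using this
  · intro i j hij
    obtain ⟨q, hq0, hq1⟩ := hq i j hij
    have hN0 : N ≠ 0 := hN.ne'
    refine ⟨q / (4 * N), by positivity, ?_⟩
    have hq2 : (N : ℝ) * r j * (4 * r i - r j) = (q : ℝ) ^ 2 := by exact_mod_cast hq1
    have hsq : Real.sqrt N * Real.sqrt N = N := Real.mul_self_sqrt hN'.le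
    have h1 : ∀ s : ℝ, s ≠ 0 → (r j : ℝ) / s * (4 * ((r i : ℝ) / s) - r j / s) =
        (r j : ℝ) * (4 * r i - r j) / (s * s) := by
      intro s hs0
      field_simp
    have h2 := h1 (Real.sqrt N) hs.ne'
    rw [hsq] at h2
    refine h2.trans ?_
    push_cast
    rw [div_pow, ← hq2]
    field_simp
    ring

/-- Rational-area sets in `ℓ²` and rational sequences. -/
theorem result :
    ((∃ S : Set Ell2, Cardinal.mk S = Cardinal.continuum ∧ RationalArea S) ↔
      (ChainSeq 1 ∨ ChainSeq 3)) ∧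
    ((∃ S : Set Ell2, ¬ S.Countable ∧ RationalArea S) ↔ (ChainSeq 1 ∨ ChainSeq 3)) ∧
    ((∀ N : ℚ, (N = 1 ∨ N = 3) → ∀ a : Fin 4 → ℚ, (∀ i, 0 < a i) → Function.Injective a →
        {x : ℚ | ∀ i, ∃ q : ℚ, q ≠ 0 ∧ N * x * (4 * a i - x) = q ^ 2}.Finite) →
      ∀ S : Set Ell2, RationalArea S → S.Countable) := by
  have hcont : ∀ S : Set Ell2, Cardinal.mk S = Cardinal.continuum → ¬ S.Countable := by
    intro S hS hc
    rw [← Cardinal.le_aleph0_iff_set_countable, hS] at hc
    exact absurd hc (not_le.2 Cardinal.aleph0_lt_continuum)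
  have hback : ChainSeq 1 ∨ ChainSeq 3 →
      ∃ S : Set Ell2, Cardinal.mk S = Cardinal.continuum ∧ RationalArea S := by
    rintro (h | h)
    · exact backward (by norm_num) h
    · exact backward (by norm_num) h
  refine ⟨⟨?_, hback⟩, ⟨?_, ?_⟩, ?_⟩
  · rintro ⟨S, hS1, hS2⟩
    exact forward hS2 (hcont S hS1)
  · rintro ⟨S, hS1, hS2⟩
    exact forward hS2 hS1
  · intro h
    obtain ⟨S, hS1, hS2⟩ := hback h
    exact ⟨S, hcont S hS1, hS2⟩
  · intro hfal S hS
    by_contra hSu
    have hno : ∀ N : ℚ, (N = 1 ∨ N = 3) → ¬ ChainSeq N := by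
      rintro N hN ⟨r, hr, hanti, -, hq⟩
      have hfin := hfal N hN (fun i => r i.1) (fun i => hr _)
        (fun i j hij => Fin.ext (hanti.injective hij))
      have hinf : (Set.range fun n : ℕ => r (n + 4)).Infinite :=
        Set.infinite_range_of_injective fun n m hnm => by
          have := hanti.injective hnm
          omega
      apply hinf
      refine hfin.subset ?_
      rintro _ ⟨n, rfl⟩ i
      exact hq i.1 (n + 4) (by have := i.2; omega)
    rcases forward hS hSu with h | h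
    · exact hno 1 (Or.inl rfl) h
    · exact hno 3 (Or.inr rfl) h

end Main

end Pool.Agent.Results.MP_36d6be_co.ReductionToSequences
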